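import Pool.Agent.Helper40.AV.St

/-! Project AV, module AV5: Buchstab's inequality and the telescoping product. -/

set_option autoImplicit false

namespace Pool.Agent.Helper14.AV

open Pool.Agent.Helper40.AV Pool.Agent.Helper44

theorem mem_PI {a b : ℝ} (hb : 0 ≤ b) {p : ℕ} : p ∈ PI a b ↔ p.Prime ∧ a < (p : ℝ) ∧ (p : ℝ) ≤ b := by
  unfold PI
  rw [Finset.mem_filter, mem_primesUpTo hb]
  tauto

/-- AV5: Buchstab's inequality -/
theorem buchstab : Buchstab := by
  classical
  intro y l w z hw hwz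
  have hz0 : (0 : ℝ) ≤ z := by linarith
  set A : ℕ → Finset ℕ := fun p => (Finset.Ico y (y + l)).filter fun n => p ∣ n ∧
    ∀ r : ℕ, r.Prime → r ∣ n → (p : ℝ) - 1 / 2 < r with hA
  have hsub : RS y l w ⊆ RS y l z ∪ (PI w z).biUnion A := by
    intro n hn
    have hn' := hn
    rw [RS, Finset.mem_filter] at hn'
    rw [Finset.mem_union]
    by_cases h : ∀ r : ℕ, r.Prime → r ∣ n → z < r
    · left
      rw [RS, Finset.mem_filter]
      exact ⟨hn'.1, h⟩
    · right
      push Not at h
      obtain ⟨r, hr, hrn, hrz⟩ := h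
      have hn1 : n ≠ 1 := by
        rintro rfl
        exact hr.one_lt.ne' (Nat.dvd_one.mp hrn)
      have hp := Nat.minFac_prime hn1
      have hpn := Nat.minFac_dvd n
      have hmin : ∀ s : ℕ, s.Prime → s ∣ n → n.minFac ≤ s := fun s hs hsn =>
        Nat.minFac_le_of_dvd hs.two_le hsn
      rw [Finset.mem_biUnion]
      refine ⟨n.minFac, (mem_PI hz0).mpr ⟨hp, hn'.2 _ hp hpn, ?_⟩, ?_⟩
      · have : (n.minFac : ℝ) ≤ r := by exact_mod_cast hmin r hr hrn
        linarith
      · rw [hA, Finset.mem_filter]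
        refine ⟨hn'.1, hpn, fun s hs hsn => ?_⟩
        have : (n.minFac : ℝ) ≤ s := by exact_mod_cast hmin s hs hsn
        linarith
  have h1 : (RS y l w).card ≤ (RS y l z).card + ∑ p ∈ PI w z, (A p).card :=
    (Finset.card_le_card hsub).trans ((Finset.card_union_le _ _).trans
      (Nat.add_le_add_left Finset.card_biUnion_le _))
  exact_mod_cast h1

/-- AV5: the product telescopes -/
theorem telescope : Telescope := by
  intro w z hw hwz
  have hz0 : (0 : ℝ) ≤ z := by linarith
  have hw0 : (0 : ℝ) ≤ w := by linarith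
  -- split of the product
  have hsplit : ∀ p : ℕ, p ∈ PI w z → VV ((p : ℝ) - 1 / 2) =
      VV w * ∏ r ∈ (PI w z).filter (fun r => r < p), (1 - (1 : ℝ) / r) := by
    intro p hp
    obtain ⟨hpp, hwp, hpz⟩ := (mem_PI hz0).mp hp
    have hp1 : (1 : ℝ) ≤ p := by exact_mod_cast hpp.one_lt.le
    rw [VV, VV, ← Finset.prod_union]
    · refine Finset.prod_congr ?_ fun _ _ => rfl
      ext r
      rw [Finset.mem_union, Finset.mem_filter, mem_PI hz0, mem_primesUpTo hw0,
        mem_primesUpTo (by linarith)]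
      constructor
      · rintro ⟨hr, hrp⟩
        have hrp' : r < p := by
          by_contra hcon
          have : (p : ℝ) ≤ r := by exact_mod_cast not_lt.mp hcon
          linarith
        rcases le_or_gt (r : ℝ) w with h | h
        · exact Or.inl ⟨hr, h⟩
        · refine Or.inr ⟨⟨hr, h, ?_⟩, hrp'⟩
          have : (r : ℝ) ≤ p := by exact_mod_cast hrp'.le
          linarith
      · have hkey : ∀ r : ℕ, r < p → (r : ℝ) ≤ p - 1 / 2 := by
          intro r hr
          have : (r : ℝ) + 1 ≤ p := by exact_mod_cast hr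
          linarith
        rintro (⟨hr, hrw⟩ | ⟨⟨hr, -, -⟩, hrp⟩)
        · refine ⟨hr, hkey r ?_⟩
          have : (r : ℝ) < p := by linarith
          exact_mod_cast this
        · exact ⟨hr, hkey r hrp⟩
    · rw [Finset.disjoint_left]
      intro r h1 h2
      rw [mem_primesUpTo hw0] at h1
      rw [Finset.mem_filter, mem_PI hz0] at h2
      linarith [h1.2, h2.1.2.1]
  have hz : VV z = VV w * ∏ r ∈ PI w z, (1 - (1 : ℝ) / r) := by
    rw [VV, VV, ← Finset.prod_union]
    · refine Finset.prod_congr ?_ fun _ _ => rfl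
      ext r
      rw [Finset.mem_union, mem_PI hz0, mem_primesUpTo hw0, mem_primesUpTo hz0]
      constructor
      · rintro ⟨hr, hrz⟩
        rcases le_or_gt (r : ℝ) w with h | h
        · exact Or.inl ⟨hr, h⟩
        · exact Or.inr ⟨hr, h, hrz⟩
      · rintro (⟨hr, hrw⟩ | ⟨hr, -, hrz⟩)
        · exact ⟨hr, hrw.trans hwz⟩
        · exact ⟨hr, hrz⟩
    · rw [Finset.disjoint_left]
      intro r h1 h2
      rw [mem_primesUpTo hw0] at h1
      rw [mem_PI hz0] at h2
      linarith [h1.2, h2.2.1]
  rw [hz, Finset.prod_one_sub_ordered, mul_sub, mul_one, sub_sub_cancel, Finset.mul_sum]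
  refine Finset.sum_congr rfl fun p hp => ?_
  rw [hsplit p hp]
  ring

end Pool.Agent.Helper14.AV
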